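import Mathlib
import Pool.Agent.P.MP_a89d6d_nt.Main

/-!
No Euler-type formula for the odd zeta values with denominators `(k+s)! d_k`, `d_k ≤ C^k`, `C < 16`.
-/

namespace Pool.Agent.Results.MP_a89d6d_nt.NoEulerFormula

open Pool.Agent.P.MP_a89d6d_nt Filter

/-- Let `θ ≠ 0` be real, `s` a natural number, `0 ≤ C < 16`, and `d₀ ∣ d₁ ∣ d₂ ∣ ⋯` positive integers
with `d_k ≤ C^k` for large `k`.  Then for infinitely many odd `k` the number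
`d_k · θ · (2^k - 1) · (k+s)! · ζ(k) / (2π)^k` is not an integer. -/
theorem result (θ : ℝ) (hθ : θ ≠ 0) (s : ℕ) (C : ℝ) (hC₀ : 0 ≤ C) (hC : C < 16) (d : ℕ → ℕ)
    (hd₀ : ∀ k, 0 < d k) (hd₁ : ∀ k, d k ∣ d (k + 1))
    (hd₂ : ∀ᶠ k in atTop, (d k : ℝ) ≤ C ^ k) :
    {k : ℕ | Odd k ∧ ¬ ∃ z : ℤ, (d k : ℂ) * (θ : ℂ) * (2 ^ k - 1) * ((k + s).factorial : ℂ) *
      riemannZeta k / (2 * (Real.pi : ℂ)) ^ k = (z : ℂ)}.Infinite := by
  intro hfin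
  obtain ⟨k₀, hk₀⟩ := hfin.bddAbove
  have hdvd : ∀ k n, k ≤ n → d k ∣ d n := fun k n h => by
    induction h with
    | refl => exact dvd_rfl
    | step _ ih => exact ih.trans (hd₁ _)
  refine no_small_denominators θ (Complex.ofReal_ne_zero.2 hθ) s (k₀ + 1) C
    (by rwa [abs_of_nonneg hC₀]) d hd₀ hd₂ fun n k hk hk' hkn => ?_
  have h1 : ∃ z : ℤ, (d k : ℂ) * (θ : ℂ) * (2 ^ k - 1) * ((k + s).factorial : ℂ) *
      riemannZeta k / (2 * (Real.pi : ℂ)) ^ k = (z : ℂ) := by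
    by_contra h
    have := hk₀ ⟨hk, h⟩
    omega
  obtain ⟨z, hz⟩ := h1
  obtain ⟨y, hy⟩ := hdvd k n hkn
  refine ⟨y * z, ?_⟩
  rw [hy, ck]
  push_cast
  rw [← hz]
  ring

end Pool.Agent.Results.MP_a89d6d_nt.NoEulerFormula
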