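import Pool.Agent.P.MP_a89d6d_nt.Z57.Final

namespace Pool.Agent.Results.MP_a89d6d_nt.ZetaFiveOrSeven

/-- For some `j` in `{5, 7}` the numbers `1, zeta(3), zeta(j)` are linearly independent over the
rationals. -/
theorem result : LinearIndependent ℚ ![(1 : ℂ), riemannZeta 3, riemannZeta 5] ∨
    LinearIndependent ℚ ![(1 : ℂ), riemannZeta 3, riemannZeta 7] :=
  Pool.Agent.P.MP_a89d6d_nt.Z57.main

end Pool.Agent.Results.MP_a89d6d_nt.ZetaFiveOrSeven
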