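import Pool.Agent.P.MP_a89d6d_nt.Z34.Final

namespace Pool.Agent.Results.MP_a89d6d_nt.ZetaThreeFour

theorem result : LinearIndependent ℚ ![(1 : ℂ), (Real.pi : ℂ) ^ 4, riemannZeta 3] :=
  Pool.Agent.P.MP_a89d6d_nt.Z34.main

end Pool.Agent.Results.MP_a89d6d_nt.ZetaThreeFour
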